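import Pool.Agent.Q120.EI.Stm

/-! Project EI of helper120, job EMIX: mean value for distributions with small entropy deficits. -/

set_option autoImplicit false

namespace Pool.Agent.Q137.EI

open Finset MeasureTheory Filter Pool.Agent.Q93.EHC Pool.Agent.Q120.EI
open scoped Topology

/-- trivial bound of the error by `2 N / φ` -/
lemma err_tot (N k : ℕ) (hk : k + 1 ≤ N) (a : (ZMod (k + 1))ˣ) :
    |err N (k + 1) (a : ZMod (k + 1))| ≤ 2 * (N / (Nat.totient (k + 1) : ℝ)) := by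
  obtain ⟨b, hb⟩ : ∃ b : ℕ, (a : ZMod (k + 1)) = (b : ZMod (k + 1)) :=
    ⟨(a : ZMod (k + 1)).val, (ZMod.natCast_zmod_val _).symm⟩
  have hφ : 0 < Nat.totient (k + 1) := Nat.totient_pos.2 (by omega)
  have hφr : (0 : ℝ) < (Nat.totient (k + 1) : ℝ) := by exact_mod_cast hφ
  have hφk : (Nat.totient (k + 1) : ℝ) ≤ ((k + 1 : ℕ) : ℝ) := by exact_mod_cast Nat.totient_le (k + 1)
  have hkN : ((k + 1 : ℕ) : ℝ) ≤ N := by exact_mod_cast hk
  have hk0 : (0 : ℝ) < ((k + 1 : ℕ) : ℝ) := by positivity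
  have h1 := card_AP 0 N (k + 1) b (by omega)
  have e : (Icc 1 N).filter (fun p : ℕ => p.Prime ∧ (p : ZMod (k + 1)) = (a : ZMod (k + 1))) ⊆
      (Ioc 0 N).filter (fun p : ℕ => p ≡ b [MOD k + 1]) := by
    intro p hp
    rw [mem_filter, mem_Icc] at hp
    rw [mem_filter, mem_Ioc]
    refine ⟨⟨by omega, hp.1.2⟩, ?_⟩
    rw [← ZMod.natCast_eq_natCast_iff, hp.2.2, hb]
  have h2 : (((Icc 1 N).filter (fun p : ℕ => p.Prime ∧
      (p : ZMod (k + 1)) = (a : ZMod (k + 1)))).card : ℝ) ≤ ((N / (k + 1) : ℕ) : ℝ) + 1 := by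
    have := (card_le_card e).trans h1
    rw [Nat.sub_zero] at this
    exact_mod_cast this
  have h3 : ((N / (k + 1) : ℕ) : ℝ) ≤ (N : ℝ) / ((k + 1 : ℕ) : ℝ) := Nat.cast_div_le
  have h4 : (N : ℝ) / ((k + 1 : ℕ) : ℝ) ≤ N / (Nat.totient (k + 1) : ℝ) := by gcongr
  have h5 : 1 ≤ (N : ℝ) / (Nat.totient (k + 1) : ℝ) := by
    rw [le_div_iff₀ hφr, one_mul]; exact hφk.trans hkN
  have h6 : ((primePi N : ℕ) : ℝ) ≤ N := by
    have : primePi N ≤ N := by
      unfold primePi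
      refine (card_filter_le _ _).trans ?_
      rw [Nat.card_Icc]; omega
    exact_mod_cast this
  have h7 : ((primePi N : ℕ) : ℝ) / (Nat.totient (k + 1) : ℝ) ≤ N / (Nat.totient (k + 1) : ℝ) := by
    gcongr
  have h8 : (0:ℝ) ≤ ((primePi N : ℕ) : ℝ) / (Nat.totient (k + 1) : ℝ) := by positivity
  have h9 : (0:ℝ) ≤ (((Icc 1 N).filter (fun p : ℕ => p.Prime ∧
      (p : ZMod (k + 1)) = (a : ZMod (k + 1)))).card : ℝ) := Nat.cast_nonneg _
  unfold err
  rw [abs_le]
  constructor <;> linarith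

/-- large heights -/
lemma emix_large (hMAS : J_MAS) (hDYA : J_DYA) (K : ℕ → ℝ) (U : ℕ) (hK : ∀ V, 0 ≤ K V) :
    ∃ (C : ℝ) (N₀ : ℕ), 0 < C ∧ ∀ N : ℕ, 3 ≤ N → N₀ ≤ N → ∀ n : ℕ,
      (n : ℝ) * Real.log N ^ (8 * U + 40) ≤ N →
      ∀ P : ∀ k : ℕ, (ZMod (k + 1))ˣ → ℝ, (∀ k a, 0 ≤ P k a) → (∀ k, ∑ a, P k a = 1) →
      (∀ V R : ℕ, ∑ k ∈ range R, dfc k (P k) ≤ K V * (R / Real.log (R + 2) ^ V)) →
      ∑ k ∈ range n, ∑ a : (ZMod (k + 1))ˣ, P k a * |err N (k + 1) (a : ZMod (k + 1))| ≤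
        C * (N / Real.log N ^ U) := by
  classical
  obtain ⟨C, hC0, hC⟩ := wt U
  have ev := Pool.Agent.H398R2.BV.ev_log 4 (4 * U + 12) (1 / 6) (by norm_num)
  obtain ⟨X, hX⟩ := eventually_atTop.1 ((tendsto_natCast_atTop_atTop (R := ℝ)).eventually ev)
  refine ⟨C * 7 + C * 2 + 800 * 3 ^ (U + 2) * K (U + 2), X, by
    have := hK (U + 2)
    positivity, fun N hN hNX n hn P hP0 hP1 hP => ?_⟩
  have hev := hX N hNX
  have hl1 : 1 ≤ Real.log N := Pool.Agent.TH926.EH.log_ge_one hN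
  have hl0 : 0 < Real.log N := by linarith
  have hN1 : (1:ℝ) ≤ N := by exact_mod_cast (by omega : 1 ≤ N)
  have hN0 : (0:ℝ) < N := by linarith
  set L := Real.log N with hL
  have hLp : ∀ j : ℕ, 1 ≤ L ^ j := fun j => one_le_pow₀ hl1
  have hn0 : (0:ℝ) ≤ n := Nat.cast_nonneg n
  have hnNr : (n : ℝ) ≤ N := by
    have := hLp (8 * U + 40)
    nlinarith
  have hnN : n ≤ N := by exact_mod_cast hnNr
  have hnU : (n : ℝ) * L ^ (U + 1) ≤ N := by
    refine le_trans ?_ hn
    apply mul_le_mul_of_nonneg_left _ hn0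
    exact pow_le_pow_right₀ hl1 (by omega)
  have hφ : ∀ k : ℕ, (0:ℝ) < (Nat.totient (k + 1) : ℝ) := fun k => by
    exact_mod_cast Nat.totient_pos.2 (by omega)
  have he0 := Real.exp_pos 2
  have he8 : Real.exp 2 ≤ 8 := by
    have h1 := Real.exp_one_lt_d9
    have h2 : Real.exp 2 = Real.exp 1 * Real.exp 1 := by rw [← Real.exp_add]; norm_num
    have h3 := Real.exp_pos 1
    rw [h2]; nlinarith
  obtain ⟨w, hw⟩ : ∃ w : ∀ k : ℕ, (ZMod (k + 1))ˣ → ℝ,
      w = fun k a => min (P k a) (Real.exp 2 / (Nat.totient (k + 1) : ℝ)) := ⟨_, rfl⟩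
  have hw0 : ∀ k a, 0 ≤ w k a := by
    intro k a; rw [hw]
    exact le_min (hP0 k a) (by have := hφ k; positivity)
  have hwP : ∀ k a, w k a ≤ P k a := by
    intro k a; rw [hw]; exact min_le_left _ _
  have hwe : ∀ k a, w k a ≤ Real.exp 2 / (Nat.totient (k + 1) : ℝ) := by
    intro k a; rw [hw]; exact min_le_right _ _
  have hw1 : ∀ k, ∑ a, w k a ≤ 1 := fun k => by
    rw [← hP1 k]; exact sum_le_sum fun a _ => hwP k a
  have hP2 : ∀ k a, P k a ≤ 1 := by
    intro k a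
    rw [← hP1 k]
    exact single_le_sum (f := fun a => P k a) (fun b _ => hP0 k b) (mem_univ a)
  -- the part `w`
  have hlogn : Real.log n ≤ L := by
    rcases Nat.eq_zero_or_pos n with h | h
    · rw [h, Nat.cast_zero, Real.log_zero]; linarith
    · exact Real.log_le_log (by exact_mod_cast h) hnNr
  have hlogn0 : 0 ≤ Real.log n := Real.log_natCast_nonneg n
  have hsq4 : (1 + Real.log n) ^ 2 ≤ 4 * L ^ 2 := by
    calc (1 + Real.log n) ^ 2 ≤ (2 * L) ^ 2 := pow_le_pow_left₀ (by linarith) (by linarith) 2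
      _ = _ := by ring
  have hT : ∑ k ∈ range n, ∑ a, w k a ^ 2 ≤ 32 * L ^ 2 := by
    calc ∑ k ∈ range n, ∑ a, w k a ^ 2 ≤ ∑ k ∈ range n, Real.exp 2 * (1 / (Nat.totient (k + 1) : ℝ)) := by
          apply sum_le_sum
          intro k _
          calc ∑ a, w k a ^ 2 ≤ ∑ a, w k a * (Real.exp 2 / (Nat.totient (k + 1) : ℝ)) := by
                apply sum_le_sum
                intro a _
                rw [sq]
                exact mul_le_mul_of_nonneg_left (hwe k a) (hw0 k a)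
            _ = (∑ a, w k a) * (Real.exp 2 / (Nat.totient (k + 1) : ℝ)) := by rw [sum_mul]
            _ ≤ 1 * (Real.exp 2 / (Nat.totient (k + 1) : ℝ)) := by
                apply mul_le_mul_of_nonneg_right (hw1 k)
                have := hφ k
                positivity
            _ = _ := by ring
      _ = Real.exp 2 * ∑ q ∈ Icc 1 n, 1 / (Nat.totient q : ℝ) := by
          rw [← mul_sum, sum_shift (fun q => 1 / (Nat.totient q : ℝ)) n]
      _ ≤ 8 * (4 * L ^ 2) := by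
          apply mul_le_mul he8 ((Pool.Agent.H441R3.BV.sum_inv_tot n).trans hsq4) _ (by norm_num)
          exact sum_nonneg fun _ _ => by positivity
      _ = _ := by ring
  have p1 : ∑ k ∈ range n, ∑ a : (ZMod (k + 1))ˣ, w k a * |err N (k + 1) (a : ZMod (k + 1))| ≤
      C * 7 * (N / L ^ U) := by
    refine (hC N hN n hnU w hw0 hw1).trans ?_
    have h1 : Real.sqrt ((∑ k ∈ range n, ∑ a, w k a ^ 2) * (n * N)) ≤ 6 * (N / L ^ (4 * U + 19)) := by
      rw [← Real.sqrt_sq (show (0:ℝ) ≤ 6 * (N / L ^ (4 * U + 19)) by positivity)]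
      apply Real.sqrt_le_sqrt
      have h2 : (n : ℝ) ≤ N / L ^ (8 * U + 40) := by
        rw [le_div_iff₀ (by positivity)]; exact hn
      calc (∑ k ∈ range n, ∑ a, w k a ^ 2) * (n * N) ≤
            (32 * L ^ 2) * ((N / L ^ (8 * U + 40)) * N) := by gcongr
        _ = 32 * (N / L ^ (4 * U + 19)) ^ 2 := by
            rw [div_pow, ← pow_mul, show 8 * U + 40 = 2 + (4 * U + 19) * 2 by ring, pow_add]
            field_simp
        _ ≤ 36 * (N / L ^ (4 * U + 19)) ^ 2 := by gcongr; norm_num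
        _ = _ := by ring
    have h3 : Real.sqrt ((∑ k ∈ range n, ∑ a, w k a ^ 2) * (n * N)) * L ^ (3 * (U + 4)) ≤
        6 * (N / L ^ U) := by
      calc _ ≤ 6 * (N / L ^ (4 * U + 19)) * L ^ (3 * (U + 4)) :=
            mul_le_mul_of_nonneg_right h1 (by positivity)
        _ = 6 * (N / L ^ (U + 7)) := by
            rw [show 4 * U + 19 = (U + 7) + 3 * (U + 4) by ring, pow_add]
            field_simp
        _ ≤ 6 * (N / L ^ U) := by
            gcongr
            omega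
    calc C * (N / L ^ U + Real.sqrt ((∑ k ∈ range n, ∑ a, w k a ^ 2) * (n * N)) * L ^ (3 * (U + 4))) ≤
          C * (N / L ^ U + 6 * (N / L ^ U)) := by gcongr
      _ = _ := by ring
  -- the rest for the small moduli
  obtain ⟨v, hv⟩ : ∃ v : ∀ k : ℕ, (ZMod (k + 1))ˣ → ℝ, v = fun k a => P k a - w k a := ⟨_, rfl⟩
  have hv0 : ∀ k a, 0 ≤ v k a := by
    intro k a; rw [hv]; exact sub_nonneg.2 (hwP k a)
  have hvP : ∀ k a, v k a ≤ P k a := by
    intro k a; rw [hv]; exact sub_le_self _ (hw0 k a)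
  have hv1 : ∀ k, ∑ a, v k a ≤ 1 := fun k => by
    rw [← hP1 k]; exact sum_le_sum fun a _ => hvP k a
  obtain ⟨m, hm⟩ : ∃ m, m = ⌊(N : ℝ) ^ (1 / 3 : ℝ)⌋₊ + 3 := ⟨_, rfl⟩
  have hm1 : (m : ℝ) ≤ 4 * (N : ℝ) ^ (1 / 3 : ℝ) := by
    have h1 : ((⌊(N : ℝ) ^ (1 / 3 : ℝ)⌋₊ : ℕ) : ℝ) ≤ (N : ℝ) ^ (1 / 3 : ℝ) := Nat.floor_le (by positivity)
    have h2 : 1 ≤ (N : ℝ) ^ (1 / 3 : ℝ) := Real.one_le_rpow hN1 (by norm_num)
    rw [hm]; push_cast
    linarith
  have hm2 : (N : ℝ) ^ (1 / 3 : ℝ) ≤ m := by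
    have := Nat.lt_floor_add_one ((N : ℝ) ^ (1 / 3 : ℝ))
    rw [hm]; push_cast
    linarith
  have p2 : ∑ k ∈ range (min m n), ∑ a : (ZMod (k + 1))ˣ, v k a * |err N (k + 1) (a : ZMod (k + 1))| ≤
      C * 2 * (N / L ^ U) := by
    have hmn : ((min m n : ℕ) : ℝ) ≤ n := by exact_mod_cast min_le_right m n
    have hmm : ((min m n : ℕ) : ℝ) ≤ 4 * (N : ℝ) ^ (1 / 3 : ℝ) := by
      refine le_trans ?_ hm1
      exact_mod_cast min_le_left m n
    refine (hC N hN (min m n) (by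
      refine le_trans ?_ hnU
      gcongr) v hv0 hv1).trans ?_
    have h1 : ∑ k ∈ range (min m n), ∑ a, v k a ^ 2 ≤ ((min m n : ℕ) : ℝ) := by
      calc ∑ k ∈ range (min m n), ∑ a, v k a ^ 2 ≤ ∑ _k ∈ range (min m n), (1:ℝ) := by
            apply sum_le_sum
            intro k _
            refine le_trans ?_ (hv1 k)
            apply sum_le_sum
            intro a _
            rw [sq]
            have h1 := hv0 k a
            have h2 := (hvP k a).trans (hP2 k a)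
            nlinarith
        _ = _ := by simp
    have h2 : Real.sqrt ((∑ k ∈ range (min m n), ∑ a, v k a ^ 2) * (((min m n : ℕ) : ℝ) * N)) ≤
        4 * (N : ℝ) ^ (5 / 6 : ℝ) := by
      calc Real.sqrt ((∑ k ∈ range (min m n), ∑ a, v k a ^ 2) * (((min m n : ℕ) : ℝ) * N)) ≤
            Real.sqrt ((((min m n : ℕ) : ℝ)) * (((min m n : ℕ) : ℝ) * N)) := by gcongr
        _ = ((min m n : ℕ) : ℝ) * Real.sqrt N := by
            rw [show (((min m n : ℕ) : ℝ)) * (((min m n : ℕ) : ℝ) * N) = ((min m n : ℕ) : ℝ) ^ 2 * N by ring,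
              Real.sqrt_mul (by positivity), Real.sqrt_sq (by positivity)]
        _ ≤ (4 * (N : ℝ) ^ (1 / 3 : ℝ)) * Real.sqrt N := by gcongr
        _ = 4 * (N : ℝ) ^ (5 / 6 : ℝ) := by
            rw [Real.sqrt_eq_rpow, mul_assoc, ← Real.rpow_add hN0]; norm_num
    have h3 : 4 * (N : ℝ) ^ (5 / 6 : ℝ) * L ^ (3 * (U + 4)) ≤ N / L ^ U := by
      rw [le_div_iff₀ (by positivity)]
      calc 4 * (N : ℝ) ^ (5 / 6 : ℝ) * L ^ (3 * (U + 4)) * L ^ U =
            (N : ℝ) ^ (5 / 6 : ℝ) * (4 * L ^ (4 * U + 12)) := by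
              rw [show 4 * U + 12 = 3 * (U + 4) + U by ring, pow_add]; ring
        _ ≤ (N : ℝ) ^ (5 / 6 : ℝ) * (N : ℝ) ^ (1 / 6 : ℝ) := by gcongr
        _ = N := by rw [← Real.rpow_add hN0]; norm_num
    calc _ ≤ C * (N / L ^ U + 4 * (N : ℝ) ^ (5 / 6 : ℝ) * L ^ (3 * (U + 4))) := by gcongr
      _ ≤ C * (N / L ^ U + N / L ^ U) := by gcongr
      _ = _ := by ring
  -- the rest for the large moduli
  have p3 : ∑ k ∈ Ico m n, ∑ a : (ZMod (k + 1))ˣ, v k a * |err N (k + 1) (a : ZMod (k + 1))| ≤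
      800 * 3 ^ (U + 2) * K (U + 2) * (N / L ^ U) := by
    have hKU := hK (U + 2)
    rcases le_or_gt m n with hmn | hmn
    · have h1 : ∀ k ∈ Ico m n, ∑ a : (ZMod (k + 1))ˣ, v k a * |err N (k + 1) (a : ZMod (k + 1))| ≤
          2 * N * (dfc k (P k) / (Nat.totient (k + 1) : ℝ)) := by
        intro k hk
        rw [mem_Ico] at hk
        calc ∑ a : (ZMod (k + 1))ˣ, v k a * |err N (k + 1) (a : ZMod (k + 1))| ≤
              ∑ a : (ZMod (k + 1))ˣ, v k a * (2 * (N / (Nat.totient (k + 1) : ℝ))) := by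
                apply sum_le_sum
                intro a _
                exact mul_le_mul_of_nonneg_left (err_tot N k (by omega) a) (hv0 k a)
          _ = (∑ a, v k a) * (2 * (N / (Nat.totient (k + 1) : ℝ))) := by rw [sum_mul]
          _ ≤ dfc k (P k) * (2 * (N / (Nat.totient (k + 1) : ℝ))) := by
              apply mul_le_mul_of_nonneg_right
              · have := (hMAS k (P k) (hP0 k) (hP1 k)).1
                rw [hv, hw]; exact this
              · have := hφ k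
                positivity
          _ = _ := by ring
      have h2 := hDYA (fun k => dfc k (P k)) (K (U + 2)) (U + 2) m n
        (fun k => (hMAS k (P k) (hP0 k) (hP1 k)).2) hKU (by omega) hmn (hP (U + 2))
      have hlm : L / 3 ≤ Real.log m := by
        have h3 : Real.log ((N : ℝ) ^ (1 / 3 : ℝ)) ≤ Real.log m := Real.log_le_log (by positivity) hm2
        rw [Real.log_rpow hN0] at h3
        rw [hL]; linarith
      have h4 : 100 * (1 + Real.log n) ^ 2 * K (U + 2) / Real.log m ^ (U + 2) ≤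
          400 * 3 ^ (U + 2) * K (U + 2) / L ^ U := by
        calc 100 * (1 + Real.log n) ^ 2 * K (U + 2) / Real.log m ^ (U + 2) ≤
              100 * (4 * L ^ 2) * K (U + 2) / (L / 3) ^ (U + 2) := by gcongr
          _ = _ := by
              rw [div_pow, pow_add L U 2]
              field_simp
              ring
      calc ∑ k ∈ Ico m n, ∑ a : (ZMod (k + 1))ˣ, v k a * |err N (k + 1) (a : ZMod (k + 1))| ≤
            ∑ k ∈ Ico m n, 2 * N * (dfc k (P k) / (Nat.totient (k + 1) : ℝ)) := sum_le_sum h1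
        _ = 2 * N * ∑ k ∈ Ico m n, dfc k (P k) / (Nat.totient (k + 1) : ℝ) := by rw [mul_sum]
        _ ≤ 2 * N * (400 * 3 ^ (U + 2) * K (U + 2) / L ^ U) := by
            apply mul_le_mul_of_nonneg_left _ (by positivity)
            exact h2.trans h4
        _ = _ := by ring
    · rw [Ico_eq_empty_of_le hmn.le, sum_empty]
      positivity
  -- total
  have hsplit : ∑ k ∈ range n, ∑ a : (ZMod (k + 1))ˣ, P k a * |err N (k + 1) (a : ZMod (k + 1))| =
      ∑ k ∈ range n, ∑ a : (ZMod (k + 1))ˣ, w k a * |err N (k + 1) (a : ZMod (k + 1))| +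
      ∑ k ∈ range n, ∑ a : (ZMod (k + 1))ˣ, v k a * |err N (k + 1) (a : ZMod (k + 1))| := by
    rw [← sum_add_distrib]
    apply sum_congr rfl
    intro k _
    rw [← sum_add_distrib]
    apply sum_congr rfl
    intro a _
    rw [hv]; ring
  have hsplit2 : ∑ k ∈ range n, ∑ a : (ZMod (k + 1))ˣ, v k a * |err N (k + 1) (a : ZMod (k + 1))| ≤
      ∑ k ∈ range (min m n), ∑ a : (ZMod (k + 1))ˣ, v k a * |err N (k + 1) (a : ZMod (k + 1))| +
      ∑ k ∈ Ico m n, ∑ a : (ZMod (k + 1))ˣ, v k a * |err N (k + 1) (a : ZMod (k + 1))| := by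
    rw [← sum_union]
    · apply sum_le_sum_of_subset_of_nonneg
      · intro k hk
        rw [mem_range] at hk
        rw [mem_union, mem_range, mem_Ico]
        omega
      · intro k _ _
        exact sum_nonneg fun a _ => mul_nonneg (hv0 k a) (abs_nonneg _)
    · rw [disjoint_left]
      intro k hk hk'
      rw [mem_range] at hk
      rw [mem_Ico] at hk'
      omega
  rw [hsplit]
  calc _ ≤ C * 7 * (N / L ^ U) + (C * 2 * (N / L ^ U) + 800 * 3 ^ (U + 2) * K (U + 2) * (N / L ^ U)) := by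
        linarith
    _ = _ := by ring

theorem t_EMIX : J_EMIX := by
  intro hMAS hDYA K U hK
  obtain ⟨C, N₀, hC, h⟩ := emix_large hMAS hDYA K U hK
  refine ⟨8 * U + 40, C + N₀ * Real.log (N₀ + 3) ^ U, by
    have : 0 ≤ Real.log ((N₀:ℝ) + 3) := Real.log_nonneg (by
      have : (0:ℝ) ≤ N₀ := Nat.cast_nonneg _
      linarith)
    positivity, fun N hN n hn P hP0 hP1 hP => ?_⟩
  have hl1 : 1 ≤ Real.log N := Pool.Agent.TH926.EH.log_ge_one hN
  have hl0 : 0 < Real.log N := by linarith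
  have hN0 : (0:ℝ) < N := by exact_mod_cast (by omega : 0 < N)
  have hN₀ : (0:ℝ) ≤ N₀ := Nat.cast_nonneg _
  have hlog3 : 0 ≤ Real.log ((N₀:ℝ) + 3) := Real.log_nonneg (by linarith)
  rcases le_or_gt N₀ N with hNN | hNN
  · refine (h N hN hNN n hn P hP0 hP1 hP).trans ?_
    apply mul_le_mul_of_nonneg_right _ (by positivity)
    have : 0 ≤ (N₀ : ℝ) * Real.log (N₀ + 3) ^ U := by positivity
    linarith
  · have h1 : ∑ k ∈ range n, ∑ a : (ZMod (k + 1))ˣ, P k a * |err N (k + 1) (a : ZMod (k + 1))| ≤ n * N := by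
      calc _ ≤ ∑ k ∈ range n, ∑ a : (ZMod (k + 1))ˣ, P k a * N := by
            apply sum_le_sum
            intro k _
            apply sum_le_sum
            intro a _
            exact mul_le_mul_of_nonneg_left (err_triv N k a) (hP0 k a)
        _ = ∑ k ∈ range n, (N : ℝ) := by
            apply sum_congr rfl
            intro k _
            rw [← sum_mul, hP1 k, one_mul]
        _ = _ := by rw [sum_const, card_range, nsmul_eq_mul]
    have hn0 : (0:ℝ) ≤ n := Nat.cast_nonneg n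
    have h2 : (n : ℝ) ≤ N₀ := by
      have h3 : (1:ℝ) ≤ Real.log N ^ (8 * U + 40) := one_le_pow₀ hl1
      have h4 : (n : ℝ) ≤ N := by nlinarith
      have h5 : (N : ℝ) ≤ N₀ := by exact_mod_cast hNN.le
      linarith
    have h3 : (N : ℝ) ≤ Real.log (N₀ + 3) ^ U * (N / Real.log N ^ U) := by
      rw [mul_div_assoc', le_div_iff₀ (by positivity), mul_comm (N : ℝ)]
      apply mul_le_mul_of_nonneg_right _ hN0.le
      apply pow_le_pow_left₀ hl0.le
      apply Real.log_le_log hN0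
      have h5 : (N : ℝ) ≤ N₀ := by exact_mod_cast hNN.le
      linarith
    calc _ ≤ (n : ℝ) * N := h1
      _ ≤ N₀ * N := by gcongr
      _ ≤ N₀ * (Real.log (N₀ + 3) ^ U * (N / Real.log N ^ U)) := by gcongr
      _ ≤ _ := by
          have : 0 ≤ C * (N / Real.log N ^ U) := by positivity
          nlinarith

end Pool.Agent.Q137.EI
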