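import Pool.Agent.Q120.EI.Stm

/-! Project EI of helper120, job PIC: one bad height costs a sparse set of moduli. -/

set_option autoImplicit false

namespace Pool.Agent.Q137.EI

open Finset MeasureTheory Filter Pool.Agent.Q93.EHC Pool.Agent.Q120.EI
open scoped Topology

lemma large (f g : ℕ → ℝ) (hf : ∀ x, 0 ≤ f x) (hg : ∀ x, 0 ≤ g x) (hg' : ∀ x, 2 < x → 0 < g x)
    (h : ¬ ∃ C : ℝ, ∀ x : ℕ, 2 < x → f x ≤ C * g x) (X : ℕ) (C0 : ℝ) :
    ∃ x, X ≤ x ∧ 2 < x ∧ C0 * g x < f x := by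
  by_contra hcon
  push Not at hcon
  apply h
  refine ⟨|C0| + ∑ x ∈ range X, f x / g x, fun x hx => ?_⟩
  have h0 : 0 ≤ ∑ x ∈ range X, f x / g x := sum_nonneg fun x _ => div_nonneg (hf x) (hg x)
  have hpos := hg' x hx
  have h3 := abs_nonneg C0
  rcases lt_or_ge x X with hxX | hxX
  · have h1 : f x / g x ≤ ∑ x ∈ range X, f x / g x :=
      single_le_sum (f := fun x => f x / g x) (fun y _ => div_nonneg (hf y) (hg y)) (mem_range.2 hxX)
    rw [div_le_iff₀ hpos] at h1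
    nlinarith
  · have h1 := hcon x hxX hx
    have h2 := le_abs_self C0
    nlinarith

/-- small moduli -/
lemma smallmod (A : ℝ) : ∃ (C : ℝ) (X : ℕ), 0 ≤ C ∧ ∀ x : ℕ, X ≤ x → 2 < x →
    ∀ c : ∀ k : ℕ, (ZMod (k + 1))ˣ, ∑ k ∈ range ⌊(x : ℝ) ^ (1 / 4 : ℝ)⌋₊,
      |err x (k + 1) (c k : ZMod (k + 1))| ≤ C * (x * Real.log x ^ (-A)) := by
  classical
  obtain ⟨U, hU⟩ := exists_nat_ge A
  obtain ⟨C, hC0, hC⟩ := wt U
  have ev := Pool.Agent.H398R2.BV.ev_log 1 (4 * U + 12) (1 / 4) (by norm_num)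
  obtain ⟨X, hX⟩ := eventually_atTop.1 ((tendsto_natCast_atTop_atTop (R := ℝ)).eventually ev)
  refine ⟨C * 2, X, by positivity, fun x hx hx2 c => ?_⟩
  have hev := hX x hx
  rw [one_mul] at hev
  have hl1 : 1 ≤ Real.log x := Pool.Agent.TH926.EH.log_ge_one (N := x) (by omega)
  have hl0 : 0 < Real.log x := by linarith
  have hx1 : (1:ℝ) ≤ x := by exact_mod_cast (by omega : 1 ≤ x)
  have hx0 : (0:ℝ) < x := by linarith
  set L := Real.log x with hL
  set m := ⌊(x : ℝ) ^ (1 / 4 : ℝ)⌋₊ with hm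
  have hm1 : (m : ℝ) ≤ (x : ℝ) ^ (1 / 4 : ℝ) := Nat.floor_le (by positivity)
  have hLp : L ^ (U + 1) ≤ (x : ℝ) ^ (1 / 4 : ℝ) :=
    (pow_le_pow_right₀ hl1 (by omega)).trans hev
  have hhalf : (x : ℝ) ^ (1 / 4 : ℝ) * (x : ℝ) ^ (1 / 4 : ℝ) = (x : ℝ) ^ (1 / 2 : ℝ) := by
    rw [← Real.rpow_add hx0]; norm_num
  have hhalf1 : (x : ℝ) ^ (1 / 2 : ℝ) ≤ x := by
    calc (x : ℝ) ^ (1 / 2 : ℝ) ≤ (x : ℝ) ^ (1 : ℝ) :=
          Real.rpow_le_rpow_of_exponent_le hx1 (by norm_num)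
      _ = x := Real.rpow_one _
  have hc1 : (m : ℝ) * L ^ (U + 1) ≤ x := by
    calc (m : ℝ) * L ^ (U + 1) ≤ (x : ℝ) ^ (1 / 4 : ℝ) * (x : ℝ) ^ (1 / 4 : ℝ) := by gcongr
      _ = (x : ℝ) ^ (1 / 2 : ℝ) := hhalf
      _ ≤ x := hhalf1
  obtain ⟨w, hw⟩ : ∃ w : ∀ k : ℕ, (ZMod (k + 1))ˣ → ℝ, w = fun k a => if a = c k then 1 else 0 :=
    ⟨_, rfl⟩
  have hw0 : ∀ k a, 0 ≤ w k a := by
    intro k a; rw [hw]; dsimp only; split_ifs <;> norm_num
  have hw1 : ∀ k, ∑ a, w k a = 1 := by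
    intro k; rw [hw]; simp
  have hw2 : ∀ k, ∑ a, w k a ^ 2 = 1 := by
    intro k; rw [← hw1 k]
    apply sum_congr rfl
    intro a _
    rw [hw]; dsimp only; split_ifs <;> norm_num
  have h1 := hC x (by omega) m hc1 w hw0 (fun k => (hw1 k).le)
  have h2 : ∑ k ∈ range m, ∑ a : (ZMod (k + 1))ˣ, w k a * |err x (k + 1) (a : ZMod (k + 1))| =
      ∑ k ∈ range m, |err x (k + 1) (c k : ZMod (k + 1))| := by
    apply sum_congr rfl
    intro k _
    rw [hw]
    simp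
  have h3 : ∑ k ∈ range m, ∑ a, w k a ^ 2 = m := by
    rw [sum_congr rfl fun k _ => hw2 k]; simp
  rw [h2, h3] at h1
  have h4 : Real.sqrt ((m : ℝ) * (m * x)) ≤ (x : ℝ) ^ (3 / 4 : ℝ) := by
    rw [show (m : ℝ) * (m * x) = m ^ 2 * x by ring, Real.sqrt_mul (by positivity),
      Real.sqrt_sq (by positivity), Real.sqrt_eq_rpow]
    calc (m : ℝ) * (x : ℝ) ^ (1 / 2 : ℝ) ≤ (x : ℝ) ^ (1 / 4 : ℝ) * (x : ℝ) ^ (1 / 2 : ℝ) := by gcongr
      _ = _ := by rw [← Real.rpow_add hx0]; norm_num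
  have h5 : (x : ℝ) ^ (3 / 4 : ℝ) * L ^ (3 * (U + 4)) ≤ x / L ^ U := by
    rw [le_div_iff₀ (by positivity), mul_assoc, ← pow_add]
    calc (x : ℝ) ^ (3 / 4 : ℝ) * L ^ (3 * (U + 4) + U) = (x : ℝ) ^ (3 / 4 : ℝ) * L ^ (4 * U + 12) := by
          congr 2; ring
      _ ≤ (x : ℝ) ^ (3 / 4 : ℝ) * (x : ℝ) ^ (1 / 4 : ℝ) := by gcongr
      _ = x := by rw [← Real.rpow_add hx0]; norm_num
  have h6 : (x : ℝ) / L ^ U ≤ x * L ^ (-A) := by
    rw [div_eq_mul_inv, ← Real.rpow_natCast, ← Real.rpow_neg hl0.le]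
    apply mul_le_mul_of_nonneg_left _ hx0.le
    exact Real.rpow_le_rpow_of_exponent_le hl1 (by linarith)
  calc _ ≤ _ := h1
    _ ≤ C * (x / L ^ U + (x : ℝ) ^ (3 / 4 : ℝ) * L ^ (3 * (U + 4))) := by gcongr
    _ ≤ C * (x * L ^ (-A) + x * L ^ (-A)) := by
        apply mul_le_mul_of_nonneg_left _ hC0.le
        linarith
    _ = _ := by ring

/-- counting in a residue class -/
lemma card_class (T r R : ℕ) (_hT : 0 < T) (M : Finset ℕ) (hM : ∀ k ∈ M, k % T = r ∧ k < R) :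
    M.card ≤ R / T + 1 := by
  rw [← card_range (R / T + 1)]
  apply card_le_card_of_injOn (fun k => k / T)
  · intro k hk
    rw [coe_range, Set.mem_Iio]
    exact Nat.lt_succ_of_le (Nat.div_le_div_right (hM k hk).2.le)
  · intro k hk k' hk' he
    have h1 := Nat.div_add_mod k T
    have h2 := Nat.div_add_mod k' T
    rw [(hM k hk).1] at h1
    rw [(hM k' hk').1] at h2
    simp only at he
    rw [he] at h1
    omega

/-- monotonicity of `t / log t ^ n` -/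
lemma mono_div_log (n : ℕ) (hn : 0 < n) (s t : ℝ) (hs : Real.exp n ≤ s) (hst : s ≤ t) :
    s / Real.log s ^ n ≤ t / Real.log t ^ n := by
  have hs0 : 0 < s := (Real.exp_pos _).trans_le hs
  have ht0 : 0 < t := hs0.trans_le hst
  have hn' : (0:ℝ) < n := by exact_mod_cast hn
  have hls : (n : ℝ) ≤ Real.log s := by rwa [Real.le_log_iff_exp_le hs0]
  have hlt : Real.log s ≤ Real.log t := Real.log_le_log hs0 hst
  have ha := Real.log_div_self_rpow_antitoneOn (a := 1 / (n : ℝ)) (by positivity)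
  have h1 : Real.exp (1 / (n : ℝ))⁻¹ = Real.exp n := by rw [one_div, inv_inv]
  have h2 := ha (a := s) (b := t) (by
    show Real.exp (1 / (n : ℝ))⁻¹ ≤ s
    rw [h1]; exact hs) (by
    show Real.exp (1 / (n : ℝ))⁻¹ ≤ t
    rw [h1]; exact hs.trans hst) hst
  simp only at h2
  have h3 := pow_le_pow_left₀ (by
    have : 0 ≤ Real.log t := by linarith
    positivity) h2 n
  rw [div_pow, div_pow, ← Real.rpow_natCast (t ^ (1 / (n : ℝ))), ← Real.rpow_mul ht0.le,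
    ← Real.rpow_natCast (s ^ (1 / (n : ℝ))), ← Real.rpow_mul hs0.le, one_div_mul_cancel hn'.ne',
    Real.rpow_one, Real.rpow_one] at h3
  have hps : 0 < Real.log s ^ n := pow_pos (by linarith) n
  have hpt : 0 < Real.log t ^ n := pow_pos (by linarith) n
  rw [div_le_div_iff₀ ht0 hs0] at h3
  rw [div_le_div_iff₀ hps hpt]
  linarith

/-- the count against `R / log (R + 2) ^ (V + 2)` -/
lemma countR (V : ℕ) : ∃ X : ℕ, ∀ x : ℕ, X ≤ x → 2 < x → ∀ R : ℕ, (x : ℝ) ^ (1 / 4 : ℝ) ≤ R →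
    (min (R : ℝ) x) / Real.log x ^ (V + 3) + 1 ≤ R / Real.log (R + 2) ^ (V + 2) := by
  have ev1 := Pool.Agent.H398R2.BV.ev_log (2 ^ (V + 4)) (V + 2) (1 / 4) (by norm_num)
  have ev2 := Real.tendsto_log_atTop.eventually_ge_atTop (2 ^ (V + 4))
  have ev3 := eventually_ge_atTop (Real.exp ((V + 2 : ℕ) : ℝ))
  obtain ⟨X, hX⟩ := eventually_atTop.1
    ((tendsto_natCast_atTop_atTop (R := ℝ)).eventually (ev1.and (ev2.and ev3)))
  refine ⟨X, fun x hx hx2 R hR => ?_⟩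
  obtain ⟨e1, e2, e3⟩ := hX x hx
  have hx1 : (2:ℝ) < x := by exact_mod_cast hx2
  have hx0 : (0:ℝ) < x := by linarith
  have hl1 : 1 ≤ Real.log x := Pool.Agent.TH926.EH.log_ge_one (N := x) (by omega)
  have hl0 : 0 < Real.log x := by linarith
  have hlog2 : Real.log (x + 2) ≤ 2 * Real.log x := by
    rw [show 2 * Real.log (x : ℝ) = Real.log ((x : ℝ) ^ 2) by rw [Real.log_pow]; norm_num]
    apply Real.log_le_log (by linarith)
    nlinarith
  set L := Real.log x with hL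
  have hR1 : 2 ^ (V + 4) * L ^ (V + 2) ≤ (R : ℝ) := e1.trans hR
  have hp : (1:ℝ) ≤ 2 ^ (V + 4) := one_le_pow₀ (by norm_num)
  have hLp : (1:ℝ) ≤ L ^ (V + 2) := one_le_pow₀ hl1
  have hR2 : (1:ℝ) ≤ R := by nlinarith
  have hpow2 : Real.log ((x:ℝ) + 2) ^ (V + 2) ≤ 2 ^ (V + 2) * L ^ (V + 2) := by
    rw [← mul_pow]
    exact pow_le_pow_left₀ (Real.log_nonneg (by linarith)) hlog2 _
  have key : ∀ y : ℝ, 0 ≤ y → 2 ^ (V + 4) * L ^ (V + 2) ≤ y →
      y / L ^ (V + 3) + 1 ≤ y / (2 ^ (V + 3) * L ^ (V + 2)) := by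
    intro y hy0 hy
    have a1 : y / L ^ (V + 3) ≤ y / (2 ^ (V + 4) * L ^ (V + 2)) := by
      apply div_le_div_of_nonneg_left hy0 (by positivity)
      calc (2:ℝ) ^ (V + 4) * L ^ (V + 2) ≤ L * L ^ (V + 2) := by gcongr
        _ = _ := by ring
    have a2 : 1 ≤ y / (2 ^ (V + 4) * L ^ (V + 2)) := by
      rw [le_div_iff₀ (by positivity), one_mul]; exact hy
    have a3 : y / (2 ^ (V + 3) * L ^ (V + 2)) = 2 * (y / (2 ^ (V + 4) * L ^ (V + 2))) := by
      rw [pow_succ 2 (V + 3)]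
      field_simp
    rw [a3]; linarith
  rcases le_or_gt (R : ℝ) x with hRx | hRx
  · rw [min_eq_left hRx]
    refine (key R (by linarith) hR1).trans ?_
    apply div_le_div_of_nonneg_left (by linarith)
    · apply pow_pos
      apply Real.log_pos
      linarith
    · calc Real.log ((R:ℝ) + 2) ^ (V + 2) ≤ Real.log ((x:ℝ) + 2) ^ (V + 2) := by
            apply pow_le_pow_left₀ (Real.log_nonneg (by linarith))
            exact Real.log_le_log (by linarith) (by linarith)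
        _ ≤ 2 ^ (V + 2) * L ^ (V + 2) := hpow2
        _ ≤ 2 ^ (V + 3) * L ^ (V + 2) := by
            have : (2:ℝ) ^ (V + 2) ≤ 2 ^ (V + 3) := pow_le_pow_right₀ (by norm_num) (by omega)
            gcongr
  · rw [min_eq_right hRx.le]
    have hx3 : 2 ^ (V + 4) * L ^ (V + 2) ≤ (x : ℝ) := by
      refine e1.trans ?_
      calc (x : ℝ) ^ (1 / 4 : ℝ) ≤ (x : ℝ) ^ (1 : ℝ) :=
            Real.rpow_le_rpow_of_exponent_le (by linarith) (by norm_num)
        _ = x := Real.rpow_one _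
    refine (key x hx0.le hx3).trans ?_
    have hm := mono_div_log (V + 2) (by omega) ((x:ℝ) + 2) ((R:ℝ) + 2) (by linarith) (by linarith)
    have hlR : 0 < Real.log ((R:ℝ) + 2) ^ (V + 2) := pow_pos (Real.log_pos (by linarith)) _
    have hlx : 0 < Real.log ((x:ℝ) + 2) ^ (V + 2) := pow_pos (Real.log_pos (by linarith)) _
    calc (x:ℝ) / (2 ^ (V + 3) * L ^ (V + 2)) = (x / (2 ^ (V + 2) * L ^ (V + 2))) / 2 := by
          rw [pow_succ 2 (V + 2)]; field_simp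
      _ ≤ (x / Real.log ((x:ℝ) + 2) ^ (V + 2)) / 2 := by gcongr
      _ ≤ (((x:ℝ) + 2) / Real.log ((x:ℝ) + 2) ^ (V + 2)) / 2 := by gcongr; linarith
      _ ≤ (((R:ℝ) + 2) / Real.log ((R:ℝ) + 2) ^ (V + 2)) / 2 := by gcongr
      _ = (((R:ℝ) + 2) / 2) / Real.log ((R:ℝ) + 2) ^ (V + 2) := by ring
      _ ≤ (R : ℝ) / Real.log ((R:ℝ) + 2) ^ (V + 2) := by gcongr; linarith

theorem t_PIC : J_PIC := by
  classical
  intro θ A V hθ hA hfail x₀
  obtain ⟨C1, X1, hC1, h1⟩ := smallmod A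
  obtain ⟨X2, h2⟩ := countR V
  have ev1 := Real.tendsto_log_atTop.eventually_ge_atTop 2
  have ev2 := (tendsto_rpow_atTop (show (0:ℝ) < 1 / 4 by norm_num)).eventually_ge_atTop (x₀ : ℝ)
  obtain ⟨X3, h3⟩ := eventually_atTop.1
    ((tendsto_natCast_atTop_atTop (R := ℝ)).eventually (ev1.and ev2))
  obtain ⟨x, hxX, hx2, hx⟩ := large (fun x => ∑ k ∈ range ⌊(x : ℝ) ^ θ⌋₊, E x (k + 1))
    (fun x => (x : ℝ) * Real.log x ^ (-A))
    (fun x => sum_nonneg fun k _ => maxErr_nonneg (ι := idm) x k)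
    (fun x => mul_nonneg (Nat.cast_nonneg x) (Real.rpow_nonneg (Real.log_natCast_nonneg x) _))
    (fun x hx => by
      have hl1 : 1 ≤ Real.log x := Pool.Agent.TH926.EH.log_ge_one (N := x) (by omega)
      have hx0 : (0:ℝ) < x := by exact_mod_cast (by omega : 0 < x)
      have : 0 < Real.log x := by linarith
      positivity)
    hfail (x₀ + X1 + X2 + X3) (C1 + 1)
  obtain ⟨e1, e2⟩ := h3 x (by omega)
  have hx1 : (2:ℝ) < x := by exact_mod_cast hx2
  have hx0 : (0:ℝ) < x := by linarith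
  have hl0 : 0 < Real.log x := by linarith
  have hl1 : 1 ≤ Real.log x := by linarith
  obtain ⟨a, ha⟩ := exists_max (ι := idm) x
  have ha' : ∀ k, E x (k + 1) = |err x (k + 1) (a k : ZMod (k + 1))| := fun k => (ha k).symm
  set L := Real.log x with hL
  obtain ⟨m, hm⟩ : ∃ m, m = ⌊(x : ℝ) ^ (1 / 4 : ℝ)⌋₊ := ⟨_, rfl⟩
  obtain ⟨n, hn⟩ : ∃ n, n = ⌊(x : ℝ) ^ θ⌋₊ := ⟨_, rfl⟩
  rw [← hn] at hx
  have hnx : (n : ℝ) ≤ x := by
    calc (n : ℝ) ≤ (x : ℝ) ^ θ := by rw [hn]; exact Nat.floor_le (by positivity)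
      _ ≤ (x : ℝ) ^ (1 : ℝ) := Real.rpow_le_rpow_of_exponent_le (by linarith) hθ.le
      _ = x := Real.rpow_one _
  have hxm : x₀ ≤ m := by rw [hm]; exact Nat.le_floor e2
  obtain ⟨g, hg⟩ : ∃ g : ℕ → ℝ, g = fun k => |err x (k + 1) (a k : ZMod (k + 1))| := ⟨_, rfl⟩
  have hg0 : ∀ k, 0 ≤ g k := fun k => by rw [hg]; exact abs_nonneg _
  have hS0 : (C1 + 1) * ((x : ℝ) * L ^ (-A)) < ∑ k ∈ range n, g k := by
    refine hx.trans_le (le_of_eq ?_)
    apply sum_congr rfl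
    intro k _
    rw [ha' k, hg]
  have hS1 : ∑ k ∈ range m, g k ≤ C1 * (x * L ^ (-A)) := by
    have := h1 x (by omega) hx2 a
    rw [← hm] at this
    rw [hg]; exact this
  have hS2 : ∑ k ∈ range n, g k ≤ ∑ k ∈ range m, g k + ∑ k ∈ Ico m n, g k := by
    rw [← sum_union]
    · apply sum_le_sum_of_subset_of_nonneg
      · intro k hk
        rw [mem_range] at hk
        rw [mem_union, mem_range, mem_Ico]
        omega
      · intro k _ _; exact hg0 k
    · rw [disjoint_left]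
      intro k hk hk'
      rw [mem_range] at hk
      rw [mem_Ico] at hk'
      omega
  have hS : (x : ℝ) * L ^ (-A) ≤ ∑ k ∈ Ico m n, g k := by nlinarith
  obtain ⟨T, hT⟩ : ∃ T, T = ⌈L ^ (V + 3)⌉₊ := ⟨_, rfl⟩
  have hLp : 1 ≤ L ^ (V + 3) := one_le_pow₀ hl1
  have hT1 : L ^ (V + 3) ≤ T := by rw [hT]; exact Nat.le_ceil _
  have hT2 : (T : ℝ) ≤ L ^ (V + 3) + 1 := by
    rw [hT]; exact (Nat.ceil_lt_add_one (by positivity)).le
  have hT0 : 0 < T := by
    have : (0:ℝ) < T := by linarith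
    exact_mod_cast this
  have hTr : (0:ℝ) < T := by exact_mod_cast hT0
  obtain ⟨r, hr, hrS⟩ : ∃ r ∈ range T, (∑ k ∈ Ico m n, g k) / T ≤
      ∑ k ∈ (Ico m n).filter (fun k => k % T = r), g k := by
    apply exists_le_of_sum_le ⟨0, mem_range.2 hT0⟩
    rw [sum_const, card_range, nsmul_eq_mul, mul_div_cancel₀ _ hTr.ne']
    rw [sum_fiberwise_of_maps_to (g := fun k => k % T)]
    intro k _
    exact mem_range.2 (Nat.mod_lt k hT0)
  refine ⟨x, (Ico m n).filter (fun k => k % T = r), a, by omega, ?_, ?_, ?_⟩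
  · intro k hk
    rw [mem_filter, mem_Ico] at hk
    rw [← hn]
    omega
  · intro R
    rcases le_or_gt R m with hRm | hRm
    · have : (((Ico m n).filter (fun k => k % T = r)).filter (fun k => k < R)) = ∅ := by
        apply filter_eq_empty_iff.2
        intro k hk
        rw [mem_filter, mem_Ico] at hk
        omega
      rw [this, card_empty, Nat.cast_zero]
      have : 0 ≤ Real.log ((R:ℝ) + 2) := Real.log_nonneg (by
        have : (0:ℝ) ≤ R := Nat.cast_nonneg R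
        linarith)
      positivity
    · have c1 := card_class T r (min R n) hT0
        (((Ico m n).filter (fun k => k % T = r)).filter (fun k => k < R)) (by
          intro k hk
          rw [mem_filter, mem_filter, mem_Ico] at hk
          exact ⟨hk.1.2, lt_min hk.2 hk.1.1.2⟩)
      have c2 : ((((Ico m n).filter (fun k => k % T = r)).filter (fun k => k < R)).card : ℝ) ≤
          ((min R n / T : ℕ) : ℝ) + 1 := by exact_mod_cast c1
      have c3 : ((min R n / T : ℕ) : ℝ) ≤ ((min R n : ℕ) : ℝ) / T := Nat.cast_div_le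
      have c4 : ((min R n : ℕ) : ℝ) ≤ min (R : ℝ) x := by
        rw [Nat.cast_min]
        exact min_le_min_left _ hnx
      have c5 : ((min R n : ℕ) : ℝ) / T ≤ (min (R : ℝ) x) / L ^ (V + 3) := by
        apply div_le_div₀ _ c4 (by positivity) hT1
        exact le_min (Nat.cast_nonneg R) hx0.le
      have c6 := h2 x (by omega) hx2 R (by
        have : (x : ℝ) ^ (1 / 4 : ℝ) < m + 1 := by rw [hm]; exact Nat.lt_floor_add_one _
        have h : (m : ℝ) + 1 ≤ R := by exact_mod_cast hRm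
        linarith)
      linarith
  · have hT3 : (T : ℝ) ≤ L ^ (V + 5) := by
      have : L ^ (V + 5) = L ^ (V + 3) * L ^ 2 := by rw [← pow_add]
      have h4 : 4 ≤ L ^ 2 := by nlinarith
      nlinarith
    calc (x : ℝ) * L ^ (-(A + V + 5)) = (x * L ^ (-A)) / L ^ (V + 5) := by
          rw [show -(A + V + 5) = -A - ((V + 5 : ℕ) : ℝ) by push_cast; ring,
            Real.rpow_sub hl0, Real.rpow_natCast, mul_div_assoc]
      _ ≤ (x * L ^ (-A)) / T := by
          apply div_le_div_of_nonneg_left (by positivity) hTr hT3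
      _ ≤ (∑ k ∈ Ico m n, g k) / T := by gcongr
      _ ≤ ∑ k ∈ (Ico m n).filter (fun k => k % T = r), g k := hrS
      _ = _ := by rw [hg]

end Pool.Agent.Q137.EI
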